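import Pool.Agent.T9h55.KU.Spec

/-! Piece PU of project MV (MP_04ff0f_nt): `p_k ≤ 4 k log k`. -/

set_option autoImplicit false

namespace Pool.Agent.T9h89.MV

open Finset Filter Topology
open Pool.Agent.T9h55.RM (P P_prime P_lt le_P pi_P P_le_sq)
open Pool.Agent.T9h55.KU

/-- **PU** -/
theorem pu : S_PU := by
  classical
  obtain ⟨X₀, hX₀⟩ := eventually_atTop.1 (Pool.Agent.T9h55.KT.primes_ap' 0 0)
  filter_upwards [P_le_sq, eventually_ge_atTop (max X₀ 2)] with k hsq hk
  have hk2 : 2 ≤ k := (le_max_right _ _).trans hk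
  have hk1 : 1 ≤ k := by omega
  have hPk : X₀ ≤ P k := by
    have h1 := le_P hk1
    have h2 : X₀ ≤ k := (le_max_left _ _).trans hk
    omega
  have hp2 : 2 ≤ P k := (P_prime k).two_le
  have h := hX₀ (P k) hPk 1 le_rfl (by simp) 1 (Nat.coprime_one_left 1) 0 (P k) (Nat.zero_le _) le_rfl (by simp)
  have hcard : (#((Ioc 0 (P k)).filter fun p => p.Prime ∧ p ≡ 1 [MOD 1]) : ℝ) ≤ k := by
    have h1 : #((Ioc 0 (P k)).filter fun p => p.Prime ∧ p ≡ 1 [MOD 1]) ≤ Nat.primeCounting (P k) := by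
      rw [Nat.primeCounting, Nat.primeCounting', Nat.count_eq_card_filter_range]
      apply card_le_card
      intro p hp
      rw [mem_filter, mem_Ioc] at hp
      rw [mem_filter, mem_range]
      exact ⟨by omega, hp.2.1⟩
    rw [pi_P hk1] at h1
    exact_mod_cast h1
  have hP0 : (2 : ℝ) ≤ P k := by exact_mod_cast hp2
  have hlP : 0 < Real.log (P k) := Real.log_pos (by linarith)
  have h3 : (P k : ℝ) / (2 * Real.log (P k)) ≤ k := by
    have h4 := h.trans hcard
    simpa using h4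
  rw [div_le_iff₀ (by positivity)] at h3
  have hk0 : (0 : ℝ) < k := by exact_mod_cast hk1
  have h5 : Real.log (P k) ≤ 2 * Real.log k := by
    have h6 : (P k : ℝ) ≤ (k : ℝ) ^ 2 := by exact_mod_cast hsq
    have h7 := Real.log_le_log (by linarith) h6
    rwa [Real.log_pow, Nat.cast_ofNat] at h7
  calc (P k : ℝ) ≤ k * (2 * Real.log (P k)) := h3
    _ ≤ k * (2 * (2 * Real.log k)) := by gcongr
    _ = 4 * k * Real.log k := by ring

end Pool.Agent.T9h89.MV
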